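import Mathlib
import Pool.Agent.H759R2.Kad.Props3

/-! Task 13: random unitaries exist. -/

open scoped ComplexOrder InnerProductSpace ComplexConjugate
open Finset

noncomputable section

namespace H759R2.Kad.A13

open H759R2.Kad

universe u v

theorem gram_mono {B : Type u} [CStarAlgebra B] [PartialOrder B] [StarOrderedRing B]
    {ι : Type} [Fintype ι] [DecidableEq ι] {Ω : Type} [Fintype Ω] {G : Ω → ι → unitary B}
    {x : CStarMatrix ι ι B} {R k : ℕ} {ε κ ε' κ' : ℝ} (h : GramOK Ω G x R k ε κ)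
    (hε : ε ≤ ε') (hκ : ∀ _ : ι, κ ≤ κ') : GramOK Ω G x R k ε' κ' := by
  obtain ⟨lam, h0, h1, h2, h3⟩ := h
  exact ⟨lam, h0, fun M hM => (h1 M hM).trans hε, h2,
    fun j => le_trans (by linarith [hκ j]) (h3 j)⟩

end H759R2.Kad.A13

namespace H759R2.Kad

universe u v

theorem prove3_rand (h1 : K_fam.{u}) (h2 : K_adj.{u}) (h3 : K_gram.{u}) : K_rand.{u} := by
  intro B _ _ _ τ hτ hD hO n Q R _ hQR x hx δ hδ ε hε
  set X : Set B := Set.range (fun p : Fin n × Fin n => x p.1 p.2) with hX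
  have hXf : X.Finite := Set.finite_range _
  set N : ℝ := 2 * Q * (n : ℝ) ^ (2 * Q + 4) + 1 with hN
  have hN0 : 0 < N := by positivity
  obtain ⟨F, hF⟩ := h1 B τ hτ hD hO n X hXf (4 * Q + 2) (ε / N) (by positivity)
  have hF' := h2 B τ n F X (4 * Q + 2) (ε / N) hF
  refine ⟨F.Idx, inferInstance, inferInstance, F.val, fun k hk => ?_⟩
  have herr : 2 * (k : ℝ) * (n : ℝ) ^ (2 * k + 4) * (ε / N) ≤ ε := by
    have h4 : 2 * (k : ℝ) * (n : ℝ) ^ (2 * k + 4) ≤ N := by
      have h5 : (n : ℝ) ^ (2 * k + 4) ≤ (n : ℝ) ^ (2 * Q + 4) := by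
        rcases Nat.eq_zero_or_pos n with h0 | h0
        · subst h0
          simp
        · exact pow_le_pow_right₀ (by exact_mod_cast h0) (by omega)
      have h6 : (k : ℝ) ≤ Q := by exact_mod_cast hk.le
      calc 2 * (k : ℝ) * (n : ℝ) ^ (2 * k + 4) ≤ 2 * Q * (n : ℝ) ^ (2 * Q + 4) := by gcongr
        _ ≤ N := by rw [hN]; linarith
    calc _ ≤ N * (ε / N) := mul_le_mul_of_nonneg_right h4 (by positivity)
      _ = ε := by field_simp
  have hκ : ∀ _ : Fin n, ((k : ℝ) + 1) ^ 2 * δ ≤ (Q : ℝ) ^ 2 * δ := by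
    intro j
    have h0 : 0 ≤ δ := by
      refine le_trans ?_ (hδ j j)
      have := hτ.pos (x j j)
      exact (Complex.le_def.1 this).1
    have h6 : (k : ℝ) + 1 ≤ Q := by exact_mod_cast hk
    gcongr
  refine ⟨?_, ?_⟩
  · have h4 := h3 B τ hτ n F X x (4 * Q + 2) (ε / N) δ (by positivity) hF
      (fun i j => Or.inl ⟨(i, j), rfl⟩) hx hδ k R (by omega) (by omega)
    exact A13.gram_mono h4 herr hκ
  · have h4 := h3 B τ hτ n F.adj X (star x) (4 * Q + 2) (ε / N) δ (by positivity) hF'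
      (fun i j => Or.inr ⟨(j, i), by simp [CStarMatrix.star_apply]⟩) (Unitary.star_mem hx)
      (fun i j => by
        refine le_trans (le_of_eq ?_) (hδ j i)
        unfold pmat
        rw [CStarMatrix.star_apply, star_star, hτ.comm]) k R (by omega) (by omega)
    exact A13.gram_mono h4 herr hκ

end H759R2.Kad
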